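import Pool.Agent.Work.MP_970e75_an.Full.Interface

/-!
# Block IP: interpolation by entire functions on arbitrary normed spaces
-/

set_option autoImplicit false

namespace Pool.Agent.Work.MP_970e75_an.Full

open Filter Topology Finset

section

variable {E : Type*} [NormedAddCommGroup E] [NormedSpace ℂ E]

/-- `Q` is `C¹` and, with its derivative, bounded on balls. -/
def IsBT (Q : E → ℂ) : Prop :=
  ContDiff ℂ 1 Q ∧ ∀ R : ℝ, ∃ C : ℝ, ∀ z, ‖z‖ ≤ R → ‖Q z‖ ≤ C ∧ ‖fderiv ℂ Q z‖ ≤ C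

theorem IsBT.const (c : ℂ) : IsBT (fun _ : E => c) := by
  refine ⟨contDiff_const, fun R => ⟨‖c‖, fun z _ => ⟨le_rfl, ?_⟩⟩⟩
  simp

theorem IsBT.affine (h : E →L[ℂ] ℂ) (b : E) (c : ℂ) : IsBT (fun z => h (z - b) / c) := by
  have h0 : (fun z => h (z - b) / c) = fun z => (c⁻¹ • h) z - h b / c := by
    ext z
    simp only [map_sub, _root_.smul_apply, smul_eq_mul]
    ring
  rw [h0]
  refine ⟨(c⁻¹ • h).contDiff.sub contDiff_const, fun R => ?_⟩
  refine ⟨max (‖c⁻¹ • h‖ * R + ‖h b / c‖) ‖c⁻¹ • h‖, fun z hz => ⟨?_, ?_⟩⟩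
  · refine (norm_sub_le _ _).trans (le_trans ?_ (le_max_left _ _))
    have := (c⁻¹ • h).le_opNorm z
    gcongr
    exact this.trans (by gcongr)
  · rw [fderiv_sub_const, ContinuousLinearMap.fderiv]
    exact le_max_right _ _

theorem IsBT.mul {P Q : E → ℂ} (hP : IsBT P) (hQ : IsBT Q) : IsBT (fun z => P z * Q z) := by
  refine ⟨hP.1.mul hQ.1, fun R => ?_⟩
  obtain ⟨C, hC⟩ := hP.2 R
  obtain ⟨D, hD⟩ := hQ.2 R
  refine ⟨|C| * |D| + |D| * |C|, fun z hz => ⟨?_, ?_⟩⟩
  · rw [norm_mul]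
    have h1 := ((hC z hz).1).trans (le_abs_self _)
    have h2 := ((hD z hz).1).trans (le_abs_self _)
    have h3 : ‖P z‖ * ‖Q z‖ ≤ |C| * |D| := by gcongr
    have h4 : 0 ≤ |D| * |C| := by positivity
    linarith
  · rw [fderiv_fun_mul (hP.1.differentiable (by norm_num) z)
      (hQ.1.differentiable (by norm_num) z)]
    refine (norm_add_le _ _).trans ?_
    rw [norm_smul, norm_smul]
    have h1 := ((hC z hz).1).trans (le_abs_self _)
    have h2 := ((hD z hz).1).trans (le_abs_self _)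
    have h3 := ((hC z hz).2).trans (le_abs_self _)
    have h4 := ((hD z hz).2).trans (le_abs_self _)
    gcongr

/-- A polynomial type function vanishing on a finite set and prescribed at one more point. -/
theorem exists_vanish' (B : Finset E) (p : E) (hpB : p ∉ B) (v : ℂ) :
    ∃ Q : E → ℂ, IsBT Q ∧ (∀ b ∈ B, Q b = 0) ∧ Q p = v := by
  classical
  have hsep : ∀ b : E, ∃ h : E →L[ℂ] ℂ, b ∈ B → h (p - b) ≠ 0 := by
    intro b
    by_cases hb : b ∈ B
    · have hne : p - b ≠ 0 := by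
        intro h0
        apply hpB
        rw [sub_eq_zero] at h0
        rw [h0]
        exact hb
      obtain ⟨g, -, hg⟩ := exists_dual_vector ℂ (p - b) (norm_ne_zero_iff.mpr hne)
      refine ⟨g, fun _ => ?_⟩
      rw [hg]
      simpa using hne
    · exact ⟨0, fun h => absurd h hb⟩
  choose h hh using hsep
  refine ⟨fun z => v * ∏ b ∈ B, (h b (z - b) / h b (p - b)), ?_, ?_, ?_⟩
  · refine (IsBT.const v).mul ?_
    clear hh hpB
    induction B using Finset.induction_on with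
    | empty => simpa using IsBT.const (1 : ℂ)
    | insert b s hb ih =>
      simp only [Finset.prod_insert hb]
      exact (IsBT.affine (h b) b _).mul ih
  · intro b hb
    have : ∏ b' ∈ B, (h b' (b - b') / h b' (p - b')) = 0 := by
      apply Finset.prod_eq_zero hb
      simp
    simp only [this, mul_zero]
  · have : ∏ b ∈ B, (h b (p - b) / h b (p - b)) = 1 := by
      apply Finset.prod_eq_one
      intro b hb
      exact div_self (hh b hb)
    simp only [this, mul_one]

/-- One correction term: vanishes on `B`, prescribed at `p`, and with small derivative on the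
ball of radius half the norm of `p`. -/
theorem exists_step' (B : Finset E) (p : E) (hp : p ≠ 0) (hpB : p ∉ B) (v : ℂ) (ε : ℝ)
    (hε : 0 < ε) :
    ∃ F : E → ℂ, ContDiff ℂ 1 F ∧ (∀ b ∈ B, F b = 0) ∧ F p = v ∧ F 0 = 0 ∧
      ∀ z, ‖z‖ ≤ ‖p‖ / 2 → ‖fderiv ℂ F z‖ ≤ ε := by
  obtain ⟨Q, hQ', hQB, hQp⟩ := exists_vanish' B p hpB v
  have hQ := hQ'.1
  have hpn : 0 < ‖p‖ := norm_pos_iff.mpr hp
  obtain ⟨g, hg1, hgp⟩ := exists_dual_vector ℂ p hpn.ne'
  set L : E →L[ℂ] ℂ := (‖p‖ : ℂ)⁻¹ • g with hL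
  have hLp : L p = 1 := by
    have : (‖p‖ : ℂ) ≠ 0 := by exact_mod_cast hpn.ne'
    simp only [hL, _root_.smul_apply, smul_eq_mul, hgp]
    exact inv_mul_cancel₀ this
  have hLn : ‖L‖ = ‖p‖⁻¹ := by
    rw [hL, norm_smul, hg1, norm_inv]
    simp
  have hLz : ∀ z, ‖z‖ ≤ ‖p‖ / 2 → ‖L z‖ ≤ 1 / 2 := by
    intro z hz
    calc ‖L z‖ ≤ ‖L‖ * ‖z‖ := L.le_opNorm z
      _ = ‖p‖⁻¹ * ‖z‖ := by rw [hLn]
      _ ≤ ‖p‖⁻¹ * (‖p‖ / 2) := by gcongr
      _ = 1 / 2 := by field_simp
  -- bounds on the ball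
  obtain ⟨C1, hC12⟩ := hQ'.2 (‖p‖ / 2)
  have hC1 : ∀ z ∈ Metric.closedBall (0 : E) (‖p‖ / 2), ‖Q z‖ ≤ C1 := fun z hz =>
    (hC12 z (by simpa using hz)).1
  obtain ⟨C2, hC2'⟩ : ∃ C2, C2 = C1 := ⟨C1, rfl⟩
  have hC2 : ∀ z ∈ Metric.closedBall (0 : E) (‖p‖ / 2), ‖fderiv ℂ Q z‖ ≤ C2 := fun z hz => by
    rw [hC2']
    exact (hC12 z (by simpa using hz)).2
  have h0mem : (0 : E) ∈ Metric.closedBall (0 : E) (‖p‖ / 2) :=
    Metric.mem_closedBall_self (by positivity)
  have hC1' : 0 ≤ C1 := le_trans (norm_nonneg _) (hC1 0 h0mem)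
  have hC2' : 0 ≤ C2 := le_trans (norm_nonneg _) (hC2 0 h0mem)
  have hlim : Tendsto (fun N : ℕ => C1 * (((N : ℝ) + 1) * (1 / 2) ^ N * ‖p‖⁻¹)
      + C2 * (1 / 2) ^ (N + 1)) atTop (𝓝 0) := by
    have h1 : Tendsto (fun N : ℕ => (N : ℝ) * (1 / 2 : ℝ) ^ N) atTop (𝓝 0) :=
      tendsto_self_mul_const_pow_of_lt_one (by norm_num) (by norm_num)
    have h2 : Tendsto (fun N : ℕ => (1 / 2 : ℝ) ^ N) atTop (𝓝 0) :=
      tendsto_pow_atTop_nhds_zero_of_lt_one (by norm_num) (by norm_num)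
    have h3 : Tendsto (fun N : ℕ => C1 * (((N : ℝ) * (1 / 2 : ℝ) ^ N + (1 / 2 : ℝ) ^ N) * ‖p‖⁻¹)
        + C2 * ((1 / 2 : ℝ) ^ N * (1 / 2))) atTop
        (𝓝 (C1 * ((0 + 0) * ‖p‖⁻¹) + C2 * (0 * (1 / 2)))) :=
      (((h1.add h2).mul_const _).const_mul _).add ((h2.mul_const _).const_mul _)
    simp only [add_zero, zero_mul, mul_zero] at h3
    refine h3.congr ?_
    intro N
    ring
  obtain ⟨N, hN⟩ := (hlim.eventually (gt_mem_nhds hε)).exists
  refine ⟨fun z => Q z * (L z) ^ (N + 1), ?_, ?_, ?_, ?_, ?_⟩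
  · exact hQ.mul (L.contDiff.pow _)
  · intro b hb
    simp [hQB b hb]
  · simp [hQp, hLp]
  · simp
  · intro z hz
    have hQd : HasFDerivAt Q (fderiv ℂ Q z) z :=
      (hQ.differentiable (by norm_num) z).hasFDerivAt
    have hLd : HasFDerivAt (fun z => (L z) ^ (N + 1))
        (((N + 1 : ℕ) : ℂ) • (L z) ^ N • L) z := by
      have := (L.hasFDerivAt (x := z)).pow (N + 1)
      simpa [smul_smul] using this
    have hF : HasFDerivAt (fun z => Q z * (L z) ^ (N + 1))
      (Q z • (((N + 1 : ℕ) : ℂ) • (L z) ^ N • L) + (L z) ^ (N + 1) • fderiv ℂ Q z) z :=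
      hQd.mul hLd
    rw [hF.fderiv]
    have hz' : z ∈ Metric.closedBall (0 : E) (‖p‖ / 2) := by simpa using hz
    have hLz' := hLz z hz
    calc ‖Q z • (((N + 1 : ℕ) : ℂ) • (L z) ^ N • L) + (L z) ^ (N + 1) • fderiv ℂ Q z‖
        ≤ ‖Q z • (((N + 1 : ℕ) : ℂ) • (L z) ^ N • L)‖ + ‖(L z) ^ (N + 1) • fderiv ℂ Q z‖ :=
          norm_add_le _ _
      _ = ‖Q z‖ * (((N : ℝ) + 1) * (‖L z‖ ^ N * ‖p‖⁻¹)) + ‖L z‖ ^ (N + 1) * ‖fderiv ℂ Q z‖ := by
          simp only [norm_smul, norm_pow, hLn]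
          have : ‖((N + 1 : ℕ) : ℂ)‖ = (N : ℝ) + 1 := by
            rw [Complex.norm_natCast]; push_cast; ring
          rw [this]
      _ ≤ C1 * (((N : ℝ) + 1) * ((1 / 2) ^ N * ‖p‖⁻¹)) + (1 / 2) ^ (N + 1) * C2 := by
          have hA := hC1 z hz'
          have hB := hC2 z hz'
          gcongr
      _ = C1 * (((N : ℝ) + 1) * (1 / 2) ^ N * ‖p‖⁻¹) + C2 * (1 / 2) ^ (N + 1) := by ring
      _ ≤ ε := hN.le

/-- Interpolation: an entire function on a normed space with prescribed values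
on an injective sequence of nonzero points tending to infinity. -/
theorem exists_entire_interp' (p : ℕ → E) (hinj : Function.Injective p) (hne : ∀ j, p j ≠ 0)
    (hlim : Tendsto (fun j => ‖p j‖) atTop atTop) (v : ℕ → ℂ) :
    ∃ f : E → ℂ, Differentiable ℂ f ∧ ∀ j, f (p j) = v j := by
  classical
  have hnot : ∀ j, p j ∉ (Finset.range j).image p := by
    intro j hj
    rw [Finset.mem_image] at hj
    obtain ⟨i, hi, hij⟩ := hj
    have := hinj hij
    rw [this] at hi
    simp at hi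
  have hstep : ∀ (j : ℕ) (w : ℂ), ∃ F : E → ℂ, ContDiff ℂ 1 F ∧
      (∀ b ∈ (Finset.range j).image p, F b = 0) ∧ F (p j) = w ∧ F 0 = 0 ∧
      ∀ z, ‖z‖ ≤ ‖p j‖ / 2 → ‖fderiv ℂ F z‖ ≤ (1 / 2 : ℝ) ^ j := fun j w =>
    exists_step' ((Finset.range j).image p) (p j) (hne j) (hnot j) w _ (by positivity)
  choose G hG1 hG2 hG3 hG4 hG5 using hstep
  let S : ℕ → (E → ℂ) := fun j => Nat.rec (fun _ => 0) (fun i s => fun z => s z + G i (v i - s (p i)) z) j
  have hS0 : ∀ z, S 0 z = 0 := fun z => rfl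
  have hSs : ∀ j z, S (j + 1) z = S j z + G j (v j - S j (p j)) z := fun j z => rfl
  let F : ℕ → (E → ℂ) := fun j => G j (v j - S j (p j))
  have hSF : ∀ j z, S j z = ∑ i ∈ Finset.range j, F i z := by
    intro j z
    induction j with
    | zero => simp [hS0]
    | succ j ih => rw [hSs, Finset.sum_range_succ, ih]
  have hFp : ∀ i j, j < i → F i (p j) = 0 := by
    intro i j hij
    exact hG2 i _ (p j) (Finset.mem_image.mpr ⟨j, Finset.mem_range.mpr hij, rfl⟩)
  have hFj : ∀ j, F j (p j) = v j - S j (p j) := fun j => hG3 j _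
  refine ⟨fun z => ∑' j, F j z, ?_, ?_⟩
  · intro x
    set R : ℝ := ‖x‖ + 1 with hR
    have hev : ∀ᶠ j in atTop, 2 * R ≤ ‖p j‖ := hlim.eventually_ge_atTop _
    obtain ⟨J, hJ⟩ := eventually_atTop.mp hev
    set s : Set E := Metric.ball (0 : E) R with hs
    have hs_open : IsOpen s := Metric.isOpen_ball
    have hs_conn : IsPreconnected s := by
      let _ : NormedSpace ℝ E := NormedSpace.restrictScalars ℝ ℂ E
      exact (convex_ball (0 : E) R).isPreconnected
    have hu : Summable (fun n : ℕ => (1 / 2 : ℝ) ^ n) :=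
      summable_geometric_of_lt_one (by norm_num) (by norm_num)
    have hder : ∀ n x, x ∈ s → HasFDerivAt (F (n + J)) (fderiv ℂ (F (n + J)) x) x := by
      intro n x _
      exact ((hG1 (n + J) _).differentiable (by norm_num) x).hasFDerivAt
    have hbd : ∀ n x, x ∈ s → ‖fderiv ℂ (F (n + J)) x‖ ≤ (1 / 2 : ℝ) ^ n := by
      intro n y hy
      have h1 : ‖y‖ ≤ ‖p (n + J)‖ / 2 := by
        have h2 := hJ (n + J) (by omega)
        have h3 : ‖y‖ < R := by simpa [hs] using hy
        linarith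
      refine (hG5 (n + J) _ y h1).trans ?_
      exact pow_le_pow_of_le_one (by norm_num) (by norm_num) (by omega)
    have h0 : (0 : E) ∈ s := by
      simp only [hs, Metric.mem_ball, dist_self]
      positivity
    have hsum0 : Summable (fun n => F (n + J) 0) := by
      have : (fun n => F (n + J) 0) = fun _ => (0 : ℂ) := by
        funext n
        exact hG4 (n + J) _
      rw [this]
      exact summable_zero
    have hx : x ∈ s := by
      simp only [hs, Metric.mem_ball, dist_zero_right, hR]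
      linarith
    have htail := hasFDerivAt_tsum_of_isPreconnected hu hs_open hs_conn hder hbd h0 hsum0 hx
    have hsumm : ∀ y ∈ s, Summable (fun n => F n y) := by
      intro y hy
      have := summable_of_summable_hasFDerivAt_of_isPreconnected hu hs_open hs_conn hder hbd h0
        hsum0 hy
      exact (summable_nat_add_iff J).mp this
    have heq : (fun z => ∑' j, F j z) =ᶠ[𝓝 x]
        fun z => (∑ j ∈ Finset.range J, F j z) + ∑' n, F (n + J) z := by
      filter_upwards [hs_open.mem_nhds hx] with y hy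
      exact ((hsumm y hy).sum_add_tsum_nat_add J).symm
    have hfin : DifferentiableAt ℂ (fun z => ∑ j ∈ Finset.range J, F j z) x := by
      apply DifferentiableAt.fun_sum
      intro j _
      exact (hG1 j _).differentiable (by norm_num) x
    exact (hfin.add htail.differentiableAt).congr_of_eventuallyEq heq
  · intro j
    have h1 : ∑' i, F i (p j) = ∑ i ∈ Finset.range (j + 1), F i (p j) := by
      apply tsum_eq_sum
      intro i hi
      apply hFp
      simpa using hi
    simp only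
    rw [h1, Finset.sum_range_succ, hFj, ← hSF]
    ring

end

open Set in
/-- Interpolation of arbitrary values at the points of a closed discrete set. -/
theorem exists_entire_values' {E : Type*} [NormedAddCommGroup E] [NormedSpace ℂ E]
    (P : Set E) (hfin : ∀ R : ℝ, {p ∈ P | ‖p‖ ≤ R}.Finite)
    (v : E → ℂ) : ∃ f : E → ℂ, Differentiable ℂ f ∧ ∀ p ∈ P, f p = v p := by
  classical
  -- the augmented infinite set in `E × ℂ`
  set Q : Set (E × ℂ) := (fun p => (p, (1 : ℂ))) '' P ∪ range (fun k : ℕ => ((0 : E), (k : ℂ) + 2))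
    with hQ
  have hQfin : ∀ R : ℝ, {x ∈ Q | ‖x‖ ≤ R}.Finite := by
    intro R
    have h1 : ((fun p => (p, (1 : ℂ))) '' {p ∈ P | ‖p‖ ≤ R}).Finite := (hfin R).image _
    obtain ⟨K, hK⟩ := exists_nat_ge R
    have h2 : ((fun k : ℕ => ((0 : E), (k : ℂ) + 2)) '' {k | k ≤ K}).Finite :=
      (Set.finite_le_nat K).image _
    refine (h1.union h2).subset ?_
    rintro x ⟨hx | hx, hn⟩
    · obtain ⟨p, hp, rfl⟩ := hx
      left
      refine ⟨p, ⟨hp, ?_⟩, rfl⟩
      exact (norm_fst_le (p, (1 : ℂ))).trans hn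
    · obtain ⟨k, rfl⟩ := hx
      right
      refine ⟨k, ?_, rfl⟩
      have h3 : ‖(k : ℂ) + 2‖ ≤ R := (norm_snd_le ((0 : E), (k : ℂ) + 2)).trans hn
      have h4 : ‖(k : ℂ) + 2‖ = (k : ℝ) + 2 := by
        have : (k : ℂ) + 2 = ((k + 2 : ℕ) : ℂ) := by push_cast; rfl
        rw [this, Complex.norm_natCast]; push_cast; rfl
      rw [h4] at h3
      have : (k : ℝ) ≤ K := by linarith
      exact_mod_cast this
  have hcount : Q.Countable := by
    have : Q = ⋃ k : ℕ, {p ∈ Q | ‖p‖ ≤ (k : ℝ)} := by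
      ext p
      simp only [Set.mem_iUnion, Set.mem_ofPred_eq]
      constructor
      · intro hp
        obtain ⟨k, hk⟩ := exists_nat_ge ‖p‖
        exact ⟨k, hp, hk⟩
      · rintro ⟨k, hp, -⟩
        exact hp
    rw [this]
    exact Set.countable_iUnion fun k => (hQfin k).countable
  have hinf : Q.Infinite := by
    apply Set.Infinite.mono subset_union_right
    apply Set.infinite_range_of_injective
    intro a b hab
    have := congrArg Prod.snd hab
    simpa using this
  have hc' : Countable Q := hcount.to_subtype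
  have hi' : Infinite Q := hinf.to_subtype
  obtain ⟨e⟩ : Nonempty (ℕ ≃ Q) := by
    obtain ⟨d⟩ := nonempty_denumerable Q
    exact ⟨d.eqv.symm⟩
  let p : ℕ → E × ℂ := fun j => (e j : E × ℂ)
  have hpinj : Function.Injective p := Subtype.val_injective.comp e.injective
  have hpne : ∀ j, p j ≠ 0 := by
    intro j hj
    rcases (e j).2 with hx | hx
    · obtain ⟨x, -, hx⟩ := hx
      have h1 : (x, (1 : ℂ)) = 0 := hx.trans hj
      have := congrArg Prod.snd h1
      simp at this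
    · obtain ⟨k, hx⟩ := hx
      have h1 : ((0 : E), (k : ℂ) + 2) = 0 := hx.trans hj
      have h2 := congrArg Prod.snd h1
      have h3 : ((k + 2 : ℕ) : ℂ) = 0 := by push_cast; exact h2
      have h4 := Nat.cast_eq_zero.mp h3
      omega
  have hlim : Tendsto (fun j => ‖p j‖) atTop atTop := by
    rw [tendsto_atTop]
    intro R
    have h1 : {j | ¬ R ≤ ‖p j‖}.Finite := by
      have h2 : {j | ¬ R ≤ ‖p j‖} ⊆ p ⁻¹' {q ∈ Q | ‖q‖ ≤ R} := by
        intro j hj
        simp only [Set.mem_ofPred_eq, not_le] at hj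
        exact ⟨(e j).2, hj.le⟩
      exact ((hQfin R).preimage (hpinj.injOn)).subset h2
    have h3 := h1.compl_mem_cofinite
    rw [Nat.cofinite_eq_atTop] at h3
    filter_upwards [h3] with j hj
    simpa using hj
  obtain ⟨f, hf, hfp⟩ := exists_entire_interp' p hpinj hpne hlim (fun j => v (p j).1)
  refine ⟨fun x => f (x, 1), ?_, ?_⟩
  · exact hf.comp (differentiable_id.prodMk (differentiable_const _))
  · intro q hq
    obtain ⟨j, hj⟩ := e.surjective ⟨(q, 1), Or.inl ⟨q, hq, rfl⟩⟩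
    have hqj : p j = (q, 1) := by
      simp only [p, hj]
    have := hfp j
    rw [hqj] at this
    exact this


theorem stmt_IP : Stmt_IP := by
  intro W _ _ P hP v
  exact exists_entire_values' P hP v

end Pool.Agent.Work.MP_970e75_an.Full
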