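import Pool.Agent.Work.MP_970e75_an_helper80.Chart

/-!
# Block IN
-/

set_option autoImplicit false

namespace Pool.Agent.Work.MP_970e75_an.Full

open Filter Topology Set MeasureTheory
open scoped Manifold ContDiff Topology

/-- **Block IN.** -/
theorem stmt_IN : Stmt_IN := by
  intro E _ _ _ G _ _ _ F a b hF hd
  have : ProperSpace E := FiniteDimensional.proper ℂ E
  refine mdiff_of_chart fun g₀ => ?_
  set φ := chartAt E g₀ with hφ
  have hmem : φ g₀ ∈ φ.target := φ.map_source (mem_chart_source E g₀)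
  obtain ⟨r, hr, hball⟩ : ∃ r : ℝ, 0 < r ∧ Metric.closedBall (φ g₀) (2 * r) ⊆ φ.target := by
    obtain ⟨r, hr, h⟩ := Metric.nhds_basis_closedBall.mem_iff.1 (φ.open_target.mem_nhds hmem)
    exact ⟨r / 2, by positivity, by rwa [mul_div_cancel₀ _ two_ne_zero]⟩
  -- the function in the chart
  let v : ℝ → E → ℂ := fun θ x => F θ (φ.symm x)
  have hv : ∀ θ, DifferentiableOn ℂ (v θ) (Metric.ball (φ g₀) (2 * r)) := fun θ =>
    (mdiff_chart (hd θ) g₀).mono (Metric.ball_subset_closedBall.trans hball)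
  -- uniform continuity
  have hcont : ContinuousOn (fun p : ℝ × E => v p.1 p.2)
      (univ ×ˢ Metric.closedBall (φ g₀) (2 * r)) := by
    have h1 : ContinuousOn (fun p : ℝ × E => ((p.1, φ.symm p.2) : ℝ × G))
        (univ ×ˢ Metric.closedBall (φ g₀) (2 * r)) := by
      refine continuousOn_fst.prodMk ?_
      exact (φ.continuousOn_symm.mono hball).comp continuousOn_snd fun p hp => hp.2
    exact hF.comp_continuousOn h1
  have hsub2 : Metric.ball (φ g₀) r ⊆ Metric.ball (φ g₀) (2 * r) :=
    Metric.ball_subset_ball (by linarith)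
  -- bound on compact sets of parameters
  have hbound : ∀ A B : ℝ, ∃ M : ℝ, ∀ θ ∈ Icc A B, ∀ x ∈ Metric.closedBall (φ g₀) (2 * r),
      ‖v θ x‖ ≤ M := by
    intro A B
    have hc : IsCompact (Icc A B ×ˢ Metric.closedBall (φ g₀) (2 * r)) :=
      isCompact_Icc.prod (isCompact_closedBall _ _)
    obtain ⟨M, hM⟩ := hc.exists_bound_of_continuousOn
      (hcont.mono (prod_mono (subset_univ _) Subset.rfl))
    exact ⟨M, fun θ hθ x hx => hM (θ, x) ⟨hθ, hx⟩⟩
  -- continuity of the derivative in the parameter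
  have hfd : ∀ x ∈ Metric.ball (φ g₀) r, Continuous (fun θ => fderiv ℂ (v θ) x) := by
    intro x hx
    rw [continuous_iff_continuousAt]
    intro θ₀
    rw [Metric.continuousAt_iff]
    intro ε hε
    have hc : IsCompact (Icc (θ₀ - 1) (θ₀ + 1) ×ˢ Metric.closedBall (φ g₀) (2 * r)) :=
      isCompact_Icc.prod (isCompact_closedBall _ _)
    have huc := hc.uniformContinuousOn_of_continuous
      (hcont.mono (prod_mono (subset_univ _) Subset.rfl))
    rw [Metric.uniformContinuousOn_iff] at huc
    obtain ⟨δ, hδ, hδ2⟩ := huc (ε * r / 4) (by positivity)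
    refine ⟨min δ 1, by positivity, fun {θ} hθ => ?_⟩
    have h1 : dist θ θ₀ < δ := lt_of_lt_of_le hθ (min_le_left _ _)
    have h2 : dist θ θ₀ < 1 := lt_of_lt_of_le hθ (min_le_right _ _)
    rw [Real.dist_eq, abs_lt] at h2
    have hx2 := hsub2 hx
    have hdx : ∀ θ, DifferentiableAt ℂ (v θ) x := fun θ =>
      (hv θ x hx2).differentiableAt (Metric.isOpen_ball.mem_nhds hx2)
    have h3 : fderiv ℂ (v θ) x - fderiv ℂ (v θ₀) x = fderiv ℂ (fun y => v θ y - v θ₀ y) x :=
      (fderiv_fun_sub (hdx θ) (hdx θ₀)).symm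
    rw [dist_eq_norm, h3]
    have h4 := fderiv_le_of_ball (v := fun y => v θ y - v θ₀ y) (x := φ g₀) (b := ε * r / 4) hr
      ((hv θ).sub (hv θ₀)) (fun y hy => by
        have h5 := hδ2 (θ, y) ⟨⟨by linarith, by linarith⟩, Metric.ball_subset_closedBall hy⟩
          (θ₀, y) ⟨⟨by linarith, by linarith⟩, Metric.ball_subset_closedBall hy⟩ (by
            rw [Prod.dist_eq]
            simpa using h1)
        rw [dist_eq_norm] at h5
        exact h5.le) hx
    refine lt_of_le_of_lt h4 ?_
    have h6 : 2 * (ε * r / 4) / r = ε / 2 := by field_simp; norm_num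
    rw [h6]
    linarith
  have hx0 : φ g₀ ∈ Metric.ball (φ g₀) r := Metric.mem_ball_self hr
  -- the interval
  obtain ⟨M, hM⟩ := hbound (min a b) (max a b)
  have hcθ : ∀ x ∈ Metric.closedBall (φ g₀) (2 * r), Continuous (fun θ => v θ x) := by
    intro x _
    exact hF.comp (continuous_id.prodMk continuous_const)
  have key := intervalIntegral.hasFDerivAt_integral_of_dominated_of_fderiv_le (𝕜 := ℂ)
    (μ := volume) (a := a) (b := b)
    (F := fun x θ => v θ x) (F' := fun x θ => fderiv ℂ (v θ) x) (x₀ := φ g₀)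
    (s := Metric.ball (φ g₀) r) (bound := fun _ => 2 * M / r)
    (Metric.isOpen_ball.mem_nhds hx0) ?_ ?_ ?_ ?_ ?_ ?_
  · exact key.differentiableAt
  · filter_upwards [Metric.isOpen_ball.mem_nhds hx0] with x hx
    exact (hcθ x (Metric.ball_subset_closedBall (hsub2 hx))).aestronglyMeasurable
  · exact (hcθ _ (Metric.ball_subset_closedBall (hsub2 hx0))).intervalIntegrable _ _
  · exact (hfd _ hx0).aestronglyMeasurable
  · refine Eventually.of_forall fun θ hθ x hx => ?_
    refine fderiv_le_of_ball hr (hv θ) (fun y hy => ?_) hx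
    refine hM θ ?_ y (Metric.ball_subset_closedBall hy)
    exact uIoc_subset_uIcc hθ
  · exact intervalIntegrable_const
  · refine Eventually.of_forall fun θ hθ x hx => ?_
    exact ((hv θ x (hsub2 hx)).differentiableAt
      (Metric.isOpen_ball.mem_nhds (hsub2 hx))).hasFDerivAt

end Pool.Agent.Work.MP_970e75_an.Full
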