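import Pool.Agent.Work.MP_970e75_an.Full.Interface
import Pool.Agent.Work.MP_970e75_an_helper80.IN

/-!
# Block LA: Laurent expansion along a circle subgroup
-/

set_option autoImplicit false

namespace Pool.Agent.Work.MP_970e75_an.Full

open Filter Topology Set MeasureTheory
open scoped Manifold ContDiff Topology
open Pool.Agent.Work.MP_970e75_an.Gen

theorem la_shift (K : ℂ → ℂ) (hK : Differentiable ℂ K)
    (hp : ∀ u, K (u + 2 * Real.pi * Complex.I) = K u) (s : ℂ) :
    ∫ θ in (0:ℝ)..2 * Real.pi, K (s + θ * Complex.I) =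
      ∫ θ in (0:ℝ)..2 * Real.pi, K (θ * Complex.I) := by
  have h1 := Complex.integral_boundary_rect_eq_zero_of_differentiableOn K
    ((s.re : ℂ)) ((2 * Real.pi : ℝ) * Complex.I) hK.differentiableOn
  simp only [Complex.ofReal_re, Complex.ofReal_im, Complex.ofReal_zero, zero_mul, add_zero,
    Complex.mul_re, Complex.mul_im, Complex.I_re, Complex.I_im, mul_zero, mul_one, sub_zero,
    zero_add] at h1
  have h2 : ∀ x : ℝ, K (x + (2 * Real.pi : ℝ) * Complex.I) = K x := by
    intro x
    have := hp x
    rw [← this]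
    push_cast
    rfl
  simp only [h2] at h1
  rw [sub_self, zero_add, sub_eq_zero] at h1
  have h3 : ∫ θ in (0:ℝ)..2 * Real.pi, K (θ * Complex.I) =
      ∫ θ in (0:ℝ)..2 * Real.pi, K (s.re + θ * Complex.I) := by
    have h4 := congrArg (fun w => -Complex.I * w) h1
    simp only [smul_eq_mul, ← mul_assoc] at h4
    rw [show -Complex.I * Complex.I = 1 by rw [neg_mul, Complex.I_mul_I, neg_neg], one_mul,
      one_mul] at h4
    exact h4
  rw [h3]
  have hper : Function.Periodic (fun θ : ℝ => K (s.re + θ * Complex.I)) (2 * Real.pi) := by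
    intro θ
    show K (s.re + ((θ + 2 * Real.pi : ℝ) : ℂ) * Complex.I) = K (s.re + θ * Complex.I)
    rw [← hp (s.re + θ * Complex.I)]
    congr 1
    push_cast
    ring
  have h5 := hper.intervalIntegral_add_eq s.im 0
  rw [zero_add] at h5
  have h6 := intervalIntegral.integral_comp_add_right (a := 0) (b := 2 * Real.pi)
    (fun θ : ℝ => K (s.re + θ * Complex.I)) s.im
  rw [zero_add, add_comm (2 * Real.pi)] at h6
  rw [← h5, ← h6]
  congr 1
  ext θ
  congr 1
  conv_lhs => rw [← Complex.re_add_im s]
  push_cast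
  ring

/-- The exponential decay on `ℤ` is summable. -/
theorem la_summable : Summable (fun n : ℤ => Real.exp (-(|n| : ℤ))) := by
  have h0 : Summable (fun n : ℕ => Real.exp (-(n:ℝ))) := by
    simpa using Real.summable_exp_neg_nat
  refine Summable.of_nat_of_neg ?_ ?_
  · simpa using h0
  · simpa using h0

theorem stmt_LA : Stmt_LA := by
  intro E _ _ _ G _ _ _ _ z hz hz1 f hf
  have hzc : Continuous z := hz.1.continuous
  have hfc : Continuous f := hf.continuous
  have : IsManifold 𝓘(ℂ, E) ω G := inferInstance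
  have : IsTopologicalGroup G := topologicalGroup_of_lieGroup 𝓘(ℂ, E) ω
  -- right multiplication is holomorphic
  have hR : ∀ a : G, MDifferentiable 𝓘(ℂ, E) 𝓘(ℂ, E) (fun g : G => g * a) := fun a =>
    (contMDiff_mul_right (I := 𝓘(ℂ, E)) (n := ω) (a := a)).mdifferentiable (by simp)
  have hL : ∀ a : G, MDifferentiable 𝓘(ℂ, E) 𝓘(ℂ, E) (fun g : G => a * g) := fun a =>
    (contMDiff_mul_left (I := 𝓘(ℂ, E)) (n := ω) (a := a)).mdifferentiable (by simp)
  have hper : ∀ u, z (u + 2 * Real.pi * Complex.I) = z u := fun u => by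
    rw [hz.2, hz1, mul_one]
  have hz0 : z 0 = 1 := by
    have h := hz.2 0 0
    rw [add_zero] at h
    exact (left_eq_mul.1 h)
  -- the entire function of one variable
  have hent : ∀ g : G, Differentiable ℂ (fun u => f (g * z u)) := by
    intro g
    rw [← mdifferentiable_iff_differentiable]
    exact hf.comp ((hL g).comp hz.1)
  set c : ℤ → G → ℂ := fun n g => ∫ θ in (0:ℝ)..2 * Real.pi,
    (1 / (2 * Real.pi)) * (Complex.exp (-(n * (θ * Complex.I))) * f (g * z (θ * Complex.I)))
    with hc
  have hshift : ∀ n g s, c n (g * z s) = Complex.exp (n * s) * c n g := by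
    intro n g s
    have h := la_shift (fun u => (1 / (2 * Real.pi)) *
      (Complex.exp (-(n * u)) * f (g * z u))) ?_ ?_ s
    · simp only [hc]
      rw [← h, ← intervalIntegral.integral_const_mul]
      congr 1
      ext θ
      rw [mul_assoc g, ← hz.2, mul_left_comm (Complex.exp (n * s)), ← mul_assoc (Complex.exp (n * s)),
        ← Complex.exp_add]
      congr 3
      ring
    · refine (differentiable_const _).mul (Differentiable.mul ?_ (hent g))
      exact ((differentiable_const _).mul differentiable_id).neg.cexp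
    · intro u
      show (1 / (2 * Real.pi)) * (Complex.exp (-(n * (u + 2 * Real.pi * Complex.I))) *
        f (g * z (u + 2 * Real.pi * Complex.I))) = _
      rw [hper]
      congr 2
      rw [show -(n * (u + 2 * Real.pi * Complex.I)) =
        -(n * u) - (n : ℤ) * (2 * Real.pi * Complex.I) by ring]
      rw [Complex.exp_sub, Complex.exp_int_mul_two_pi_mul_I, div_one]
  have hbd0 : ∀ (n : ℤ) (g : G) (M : ℝ), (∀ θ : ℝ, ‖f (g * z (θ * Complex.I))‖ ≤ M) →
      ‖c n g‖ ≤ M := by
    intro n g M hM
    have h := intervalIntegral.norm_integral_le_of_norm_le_const (a := 0) (b := 2 * Real.pi)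
      (C := (1 / (2 * Real.pi)) * M)
      (f := fun θ : ℝ => (1 / (2 * Real.pi : ℂ)) *
        (Complex.exp (-(n * (θ * Complex.I))) * f (g * z (θ * Complex.I)))) ?_
    · refine h.trans (le_of_eq ?_)
      rw [sub_zero, abs_of_pos Real.two_pi_pos]
      field_simp
    · intro θ _
      rw [norm_mul, norm_mul]
      have h1 : ‖(1 / (2 * Real.pi : ℂ))‖ = 1 / (2 * Real.pi) := by
        rw [norm_div, norm_one, norm_mul, Complex.norm_ofNat, Complex.norm_real, Real.norm_eq_abs,
          abs_of_pos Real.pi_pos]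
      have h2 : ‖Complex.exp (-(n * (θ * Complex.I)))‖ = 1 := by
        rw [show (-(n * (θ * Complex.I)) : ℂ) = ((-(n * θ) : ℝ) : ℂ) * Complex.I by
          push_cast; ring, Complex.norm_exp_ofReal_mul_I]
      rw [h1, h2, one_mul]
      have := Real.pi_pos
      gcongr
      exact hM θ
  have hbd : ∀ (g : G) (r M : ℝ), 0 ≤ r → (∀ s : ℂ, |s.re| ≤ r → ‖f (g * z s)‖ ≤ M) →
        ∀ n : ℤ, ‖c n g‖ ≤ M * Real.exp (-(|n| : ℤ) * r) := by
    intro g r M hr hM n
    set σ : ℝ := if 0 ≤ n then r else -r with hσ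
    have hσ1 : |σ| ≤ r := by
      rw [hσ]; split_ifs
      · rw [abs_of_nonneg hr]
      · rw [abs_neg, abs_of_nonneg hr]
    have hσ2 : (n : ℝ) * σ = (|n| : ℤ) * r := by
      rw [hσ]; split_ifs with h
      · rw [abs_of_nonneg h]
      · push Not at h
        rw [abs_of_neg h]; push_cast; ring
    have h1 := hshift n g (σ : ℂ)
    have h2 : ‖c n (g * z σ)‖ ≤ M := by
      refine hbd0 n _ M fun θ => ?_
      rw [mul_assoc, ← hz.2]
      refine hM _ ?_
      simpa using hσ1
    rw [h1, norm_mul, show ((n : ℂ) * (σ : ℂ)) = ((n * σ : ℝ) : ℂ) by push_cast; ring,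
      Complex.norm_exp_ofReal, hσ2] at h2
    have h3 : Real.exp (-(|n| : ℤ) * r) = (Real.exp ((|n| : ℤ) * r))⁻¹ := by
      rw [← Real.exp_neg]; congr 1; ring
    rw [h3, ← div_eq_mul_inv, le_div_iff₀ (Real.exp_pos _), mul_comm]
    exact h2
  refine ⟨c, ?_, hshift, ?_, hbd⟩
  · intro n
    refine stmt_IN E G (fun θ g => (1 / (2 * Real.pi)) *
      (Complex.exp (-(n * (θ * Complex.I))) * f (g * z (θ * Complex.I)))) 0 (2 * Real.pi) ?_ ?_
    · fun_prop
    · intro θ
      have h1 : MDifferentiable 𝓘(ℂ, E) 𝓘(ℂ, ℂ) (fun g => f (g * z (θ * Complex.I))) :=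
        hf.comp (hR _)
      have h2 := (h1.const_smul (Complex.exp (-(n * (θ * Complex.I))))).const_smul
        (1 / (2 * Real.pi) : ℂ)
      exact h2
  · intro g
    have : Fact (0 < 2 * Real.pi) := ⟨Real.two_pi_pos⟩
    have hperR : Function.Periodic (fun θ : ℝ => f (g * z (θ * Complex.I))) (2 * Real.pi) := by
      intro θ
      show f (g * z ((θ + 2 * Real.pi : ℝ) * Complex.I)) = f (g * z (θ * Complex.I))
      rw [show (((θ + 2 * Real.pi : ℝ) : ℂ) * Complex.I) = θ * Complex.I + 2 * Real.pi * Complex.I by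
        push_cast; ring, hper]
    have hcontR : Continuous (fun θ : ℝ => f (g * z (θ * Complex.I))) := by fun_prop
    let h : C(AddCircle (2 * Real.pi), ℂ) := ⟨hperR.lift, by
      exact continuous_coinduced_dom.mpr hcontR⟩
    have hh : ∀ θ : ℝ, h (θ : AddCircle (2 * Real.pi)) = f (g * z (θ * Complex.I)) := fun θ => rfl
    have hcoef : ∀ n, fourierCoeff h n = c n g := by
      intro n
      rw [fourierCoeff_eq_intervalIntegral h n 0, zero_add]
      simp only [hc]
      rw [intervalIntegral.integral_const_mul, Complex.real_smul]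
      congr 1
      · push_cast; rfl
      · congr 1
        ext θ
        rw [smul_eq_mul, hh, fourier_coe_apply]
        congr 2
        have := Real.pi_ne_zero
        have h3 : (Real.pi : ℂ) ≠ 0 := by exact_mod_cast this
        push_cast
        field_simp
    obtain ⟨M, hM⟩ : ∃ M : ℝ, ∀ s : ℂ, |s.re| ≤ 1 → ‖f (g * z s)‖ ≤ M := by
      have hK : IsCompact (Set.Icc (-1 : ℝ) 1 ×ℂ Set.Icc (0:ℝ) (2 * Real.pi)) :=
        isCompact_Icc.reProdIm isCompact_Icc
      obtain ⟨M, hM⟩ := hK.exists_bound_of_continuousOn (hent g).continuous.continuousOn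
      refine ⟨M, fun s hs => ?_⟩
      have hper2 : Function.Periodic (fun θ : ℝ => f (g * z (s.re + θ * Complex.I)))
          (2 * Real.pi) := by
        intro θ
        show f (g * z (s.re + (θ + 2 * Real.pi : ℝ) * Complex.I)) =
          f (g * z (s.re + θ * Complex.I))
        rw [← hper (s.re + θ * Complex.I)]
        congr 3
        push_cast; ring
      obtain ⟨y, hy, hy2⟩ := hper2.exists_mem_Ico₀ Real.two_pi_pos s.im
      have h3 : f (g * z s) = f (g * z (s.re + y * Complex.I)) := by
        have h4 : f (g * z (s.re + s.im * Complex.I)) = f (g * z (s.re + y * Complex.I)) := hy2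
        rw [Complex.re_add_im] at h4
        exact h4
      rw [h3]
      refine hM _ ?_
      rw [Complex.mem_reProdIm]
      constructor
      · simpa using abs_le.1 hs
      · simpa using ⟨hy.1, hy.2.le⟩
    have hsum : Summable (fourierCoeff h) := by
      refine Summable.of_norm_bounded (g := fun n : ℤ => M * Real.exp (-(|n| : ℤ)))
        (la_summable.mul_left M) fun n => ?_
      rw [hcoef]
      have := hbd g 1 M zero_le_one hM n
      simpa using this
    have hfin := has_pointwise_sum_fourier_series_of_summable hsum ((0:ℝ) : AddCircle (2 * Real.pi))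
    rw [hh] at hfin
    simp only [Complex.ofReal_zero, zero_mul, hz0, mul_one] at hfin
    have hfun : (fun n => c n g) = fun i : ℤ => fourierCoeff h i •
        fourier i ((0:ℝ) : AddCircle (2 * Real.pi)) := by
      ext n
      rw [hcoef, fourier_coe_apply]
      simp
    rw [hfun]
    exact hfin

end Pool.Agent.Work.MP_970e75_an.Full
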