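import Pool.Agent.Work.MP_970e75_an_helper80.Chart

/-!
# Blocks SU and ID
-/

set_option autoImplicit false

namespace Pool.Agent.Work.MP_970e75_an.Full

open Filter Topology Set
open scoped Manifold ContDiff Topology

/-- **Block SU.** -/
theorem stmt_SU : Stmt_SU := by
  intro E _ _ _ G _ _ _ W _ _ _ I u hu hK
  have : ProperSpace E := FiniteDimensional.proper ℂ E
  refine mdiff_of_chart fun g₀ => ?_
  set φ := chartAt E g₀ with hφ
  have hmem : φ g₀ ∈ φ.target := φ.map_source (mem_chart_source E g₀)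
  obtain ⟨r, hr, hball⟩ : ∃ r : ℝ, 0 < r ∧ Metric.closedBall (φ g₀) (2 * r) ⊆ φ.target := by
    obtain ⟨r, hr, h⟩ := Metric.nhds_basis_closedBall.mem_iff.1 (φ.open_target.mem_nhds hmem)
    exact ⟨r / 2, by positivity, by rwa [mul_div_cancel₀ _ two_ne_zero]⟩
  have hcomp : IsCompact (φ.symm '' Metric.closedBall (φ g₀) (2 * r)) :=
    (isCompact_closedBall _ _).image_of_continuousOn (φ.continuousOn_symm.mono hball)
  obtain ⟨b, hb, hbu⟩ := hK _ hcomp
  have hv : ∀ i, DifferentiableOn ℂ (u i ∘ φ.symm) (Metric.ball (φ g₀) (2 * r)) := fun i =>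
    (mdiff_chart (hu i) g₀).mono (Metric.ball_subset_closedBall.trans hball)
  have hvb : ∀ i, ∀ y ∈ Metric.ball (φ g₀) (2 * r), ‖(u i ∘ φ.symm) y‖ ≤ b i := fun i y hy =>
    hbu i _ ⟨y, Metric.ball_subset_closedBall hy, rfl⟩
  have h0 : φ g₀ ∈ Metric.ball (φ g₀) r := Metric.mem_ball_self hr
  have hsub : Metric.ball (φ g₀) r ⊆ Metric.ball (φ g₀) (2 * r) :=
    Metric.ball_subset_ball (by linarith)
  have hsumm : Summable (fun i => 2 * b i / r) := (hb.mul_left 2).div_const r
  have key := hasFDerivAt_tsum_of_isPreconnected (f := fun i => u i ∘ φ.symm)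
    (f' := fun i y => fderiv ℂ (u i ∘ φ.symm) y) (x₀ := φ g₀) (x := φ g₀) hsumm
    Metric.isOpen_ball ((convex_ball (φ g₀) r).isPreconnected)
    (fun i y hy => ((hv i y (hsub hy)).differentiableAt
      (Metric.isOpen_ball.mem_nhds (hsub hy))).hasFDerivAt)
    (fun i y hy => fderiv_le_of_ball hr (hv i) (hvb i) hy) h0
    (Summable.of_norm_bounded hb fun i => hvb i _ (hsub h0)) h0
  exact key.differentiableAt

/-- **Block ID.** -/
theorem stmt_ID : Stmt_ID := by
  intro E _ _ G _ _ _ _ W _ _ _ F hF ⟨g₁, hg₁⟩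
  -- the interior of the zero set is closed
  set Z : Set G := interior {g | F g = 0} with hZ
  have hopen : IsOpen Z := isOpen_interior
  have hZsub : ∀ {g : G}, g ∈ Z → F g = 0 := fun {g} hg => (interior_subset hg : g ∈ {g | F g = 0})
  have hclosed : IsClosed Z := by
    rw [← closure_subset_iff_isClosed]
    intro p hp
    set φ := chartAt E p with hφ
    have hps : p ∈ φ.source := mem_chart_source E p
    have hmem : φ p ∈ φ.target := φ.map_source hps
    obtain ⟨r, hr, hball⟩ := Metric.isOpen_iff.1 φ.open_target _ hmem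
    -- the open neighbourhood of p corresponding to the ball
    set V : Set G := φ.source ∩ φ ⁻¹' Metric.ball (φ p) r with hV
    have hVo : IsOpen V := φ.isOpen_inter_preimage Metric.isOpen_ball
    have hpV : p ∈ V := ⟨hps, Metric.mem_ball_self hr⟩
    obtain ⟨q, hqV, hqZ⟩ : (V ∩ Z).Nonempty := mem_closure_iff.1 hp V hVo hpV
    have hv : DifferentiableOn ℂ (F ∘ φ.symm) (Metric.ball (φ p) r) :=
      (mdiff_chart hF p).mono hball
    -- F ∘ φ.symm vanishes near φ q
    have hq0 : ∀ᶠ y in 𝓝 (φ q), (F ∘ φ.symm) y = 0 := by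
      have h1 : Tendsto φ.symm (𝓝 (φ q)) (𝓝 q) := by
        have := (φ.continuousAt_symm (φ.map_source hqV.1)).tendsto
        rwa [φ.left_inv hqV.1] at this
      have h2 : ∀ᶠ g in 𝓝 q, F g = 0 := by
        have := hopen.mem_nhds hqZ
        filter_upwards [this] with g hg
        exact hZsub hg
      exact h1.eventually h2
    have hzero : ∀ y ∈ Metric.ball (φ p) r, (F ∘ φ.symm) y = 0 := by
      intro y hy
      let S : Set ℂ := (fun t : ℂ => φ q + t • (y - φ q)) ⁻¹' Metric.ball (φ p) r
      have hSo : IsOpen S := Metric.isOpen_ball.preimage (by fun_prop)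
      have hSc : Convex ℝ S := by
        intro t₁ ht₁ t₂ ht₂ a b ha hb hab
        have h3 := (convex_ball (φ p) r) ht₁ ht₂ ha hb hab
        show φ q + (a • t₁ + b • t₂) • (y - φ q) ∈ Metric.ball (φ p) r
        convert h3 using 1
        simp only [smul_add, add_smul, smul_assoc]
        have : φ q = a • φ q + b • φ q := by rw [← add_smul, hab, one_smul]
        nth_rewrite 1 [this]
        abel
      have hd : DifferentiableOn ℂ (fun t : ℂ => (F ∘ φ.symm) (φ q + t • (y - φ q))) S := by
        have h8 : DifferentiableOn ℂ (fun t : ℂ => φ q + t • (y - φ q)) S := by fun_prop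
        exact hv.comp h8 fun t ht => ht
      have han : AnalyticOnNhd ℂ (fun t : ℂ => (F ∘ φ.symm) (φ q + t • (y - φ q))) S :=
        hd.analyticOnNhd hSo
      have h0S : (0 : ℂ) ∈ S := by
        show φ q + (0 : ℂ) • (y - φ q) ∈ Metric.ball (φ p) r
        rw [zero_smul, add_zero]
        exact hqV.2
      have h1S : (1 : ℂ) ∈ S := by
        show φ q + (1 : ℂ) • (y - φ q) ∈ Metric.ball (φ p) r
        rw [one_smul, add_sub_cancel]
        exact hy
      have hev : (fun t : ℂ => (F ∘ φ.symm) (φ q + t • (y - φ q))) =ᶠ[𝓝 0] 0 := by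
        have h4 : Tendsto (fun t : ℂ => φ q + t • (y - φ q)) (𝓝 0) (𝓝 (φ q)) := by
          have : Continuous (fun t : ℂ => φ q + t • (y - φ q)) := by fun_prop
          have := this.tendsto 0
          simpa using this
        exact h4.eventually hq0
      have h5 := han.eqOn_zero_of_preconnected_of_eventuallyEq_zero hSc.isPreconnected h0S hev h1S
      simpa using h5
    have hsub : V ⊆ {g | F g = 0} := by
      intro g hg
      have h6 := hzero (φ g) hg.2
      simp only [Function.comp_apply] at h6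
      rwa [φ.left_inv hg.1] at h6
    exact interior_maximal hsub hVo hpV
  have hZ0 : Z = ∅ := by
    rcases (isClopen_iff (s := Z)).1 ⟨hclosed, hopen⟩ with h | h
    · exact h
    · exfalso
      have : g₁ ∈ Z := by rw [h]; exact mem_univ _
      exact hg₁ (hZsub this)
  have h7 : {g | F g ≠ 0} = {g | F g = 0}ᶜ := rfl
  rw [h7, ← interior_eq_empty_iff_dense_compl]
  exact hZ0

end Pool.Agent.Work.MP_970e75_an.Full
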