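import Pool.Agent.Work.MP_970e75_an.Full.Interface
import Pool.Agent.Work.MP_970e75_an_helper80.SU

/-!
# Block Q, part 1: general lemmas
-/

set_option autoImplicit false

namespace Pool.Agent.Work.MP_970e75_an.Full

open Filter Topology Set MeasureTheory
open scoped Manifold ContDiff Topology ENNReal
open Pool.Agent.Work.MP_970e75_an.Gen

/-- A locally uniformly summable family of holomorphic functions is a holomorphic map to `ℓ¹`. -/
theorem mdiff_lp {E : Type} [NormedAddCommGroup E] [NormedSpace ℂ E] [FiniteDimensional ℂ E]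
    {G : Type} [TopologicalSpace G] [ChartedSpace E G] [IsManifold 𝓘(ℂ, E) ω G]
    {I : Type} (u : I → G → ℂ) (hu : ∀ i, MDifferentiable 𝓘(ℂ, E) 𝓘(ℂ, ℂ) (u i))
    (hb : ∀ K : Set G, IsCompact K → ∃ b : I → ℝ, Summable b ∧ ∀ i, ∀ g ∈ K, ‖u i g‖ ≤ b i) :
    ∃ F : G → lp (fun _ : I => ℂ) 1,
      MDifferentiable 𝓘(ℂ, E) 𝓘(ℂ, lp (fun _ : I => ℂ) 1) F ∧ ∀ g i, F g i = u i g := by
  classical
  have hmem : ∀ g, Memℓp (fun i => u i g) (1 : ℝ≥0∞) := by
    intro g
    refine memℓp_gen ?_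
    obtain ⟨b, hb1, hb2⟩ := hb {g} isCompact_singleton
    refine Summable.of_nonneg_of_le (fun i => by positivity) (fun i => ?_) hb1
    simpa using hb2 i g rfl
  refine ⟨fun g => ⟨fun i => u i g, hmem g⟩, ?_, fun g i => rfl⟩
  have h1 : (fun g => (⟨fun i => u i g, hmem g⟩ : lp (fun _ : I => ℂ) 1)) =
      fun g => ∑' i, lp.single 1 i (u i g) := by
    ext1 g
    exact (lp.hasSum_single (by simp) (⟨fun i => u i g, hmem g⟩ : lp (fun _ : I => ℂ) 1)).tsum_eq.symm
  rw [h1]
  refine stmt_SU E G (lp (fun _ : I => ℂ) 1) I (fun i g => lp.single 1 i (u i g)) ?_ ?_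
  · intro i
    have h2 : (fun g => (lp.single 1 i (u i g) : lp (fun _ : I => ℂ) 1)) =
        (ContinuousLinearMap.toSpanSingleton ℂ (lp.single 1 i (1:ℂ) : lp (fun _ : I => ℂ) 1)) ∘
          u i := by
      ext1 g
      simp only [Function.comp_apply, ContinuousLinearMap.toSpanSingleton_apply]
      rw [← lp.single_smul]
      simp
    rw [h2]
    exact (ContinuousLinearMap.mdifferentiable _).comp (hu i)
  · intro K hK
    obtain ⟨b, hb1, hb2⟩ := hb K hK
    refine ⟨b, hb1, fun i g hg => ?_⟩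
    rw [lp.norm_single (by simp)]
    exact hb2 i g hg

/-- Small weights making a countable family of continuous functions locally uniformly summable. -/
theorem exists_weights {G : Type} [TopologicalSpace G] {l : ℕ} (ι : G → Fin l → ℂ)
    (hι : Topology.IsClosedEmbedding ι) {J : Type} [Countable J] (h : J → G → ℂ)
    (hh : ∀ k, Continuous (h k)) :
    ∃ ε : J → ℝ, (∀ k, 0 < ε k) ∧ ∀ K : Set G, IsCompact K → ∃ b : J → ℝ, Summable b ∧
      ∀ k, ∀ g ∈ K, ‖(ε k : ℂ) * h k g‖ ≤ b k := by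
  obtain ⟨N, hN⟩ := exists_injective_nat J
  have hc : ∀ n : ℝ, IsCompact (ι ⁻¹' Metric.closedBall 0 n) := fun n =>
    hι.isCompact_preimage (isCompact_closedBall _ _)
  have h1 : ∀ k, ∃ B : ℝ, ∀ g ∈ ι ⁻¹' Metric.closedBall 0 (N k), ‖h k g‖ ≤ B := fun k =>
    (hc (N k)).exists_bound_of_continuousOn (hh k).continuousOn
  choose B hB using h1
  have hpos : ∀ k, (0:ℝ) < |B k| + 1 := fun k => by positivity
  refine ⟨fun k => (1/2) ^ (N k) / (|B k| + 1), fun k => by have := hpos k; positivity, ?_⟩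
  intro K hK
  obtain ⟨R, hR⟩ := (hK.image hι.continuous).isBounded.subset_closedBall 0
  obtain ⟨j, hj⟩ := exists_nat_ge R
  have hKj : ∀ n : ℕ, j ≤ n → K ⊆ ι ⁻¹' Metric.closedBall 0 (n : ℝ) := by
    intro n hn g hg
    have h2 := hR (Set.mem_image_of_mem ι hg)
    refine Metric.closedBall_subset_closedBall ?_ h2
    exact hj.trans (by exact_mod_cast hn)
  have h3 : ∀ k, ∃ S : ℝ, ∀ g ∈ K, ‖h k g‖ ≤ S := fun k =>
    hK.exists_bound_of_continuousOn (hh k).continuousOn
  choose S hS using h3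
  refine ⟨fun k => (1/2 : ℝ) ^ (N k) + (if N k < j then
    ((1/2 : ℝ) ^ (N k) / (|B k| + 1)) * |S k| else 0), ?_, ?_⟩
  · refine Summable.add ?_ ?_
    · exact summable_geometric_two.comp_injective hN
    · refine summable_of_hasFiniteSupport ?_
      refine Set.Finite.subset (s := {k | N k < j}) ?_ ?_
      · exact (Set.finite_lt_nat j).preimage hN.injOn
      · intro k hk
        by_contra hcon
        exact hk (if_neg hcon)
  · intro k g hg
    rw [norm_mul, Complex.norm_real, Real.norm_eq_abs,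
      abs_of_pos (by have := hpos k; positivity)]
    by_cases hk : N k < j
    · simp only [if_pos hk]
      have h4 : ‖h k g‖ ≤ |S k| := (hS k g hg).trans (le_abs_self _)
      have h5 := mul_le_mul_of_nonneg_left h4
        (show 0 ≤ (1/2 : ℝ) ^ (N k) / (|B k| + 1) by have := hpos k; positivity)
      have h6 : (0:ℝ) ≤ (1/2 : ℝ) ^ (N k) := by positivity
      linarith
    · simp only [if_neg hk, add_zero]
      have h4 : ‖h k g‖ ≤ |B k| + 1 :=
        (hB k g (hKj (N k) (not_lt.1 hk) hg)).trans ((le_abs_self _).trans (by linarith))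
      have := hpos k
      calc (1/2 : ℝ) ^ (N k) / (|B k| + 1) * ‖h k g‖
          ≤ (1/2 : ℝ) ^ (N k) / (|B k| + 1) * (|B k| + 1) := by gcongr
        _ = (1/2 : ℝ) ^ (N k) := by field_simp

/-- The numerical estimate for the invariant products. -/
theorem qn_estimate (x y M M' : ℝ) (n m : ℕ) (hn : 1 ≤ n) (hm : 1 ≤ m) (hM : 1 ≤ M)
    (hM' : 1 ≤ M') (hx0 : 0 ≤ x) (hy0 : 0 ≤ y) (hx : x ≤ M) (hy : y ≤ M)
    (hx' : x ≤ M' * Real.exp (-n * (4 + Real.log M)))
    (hy' : y ≤ M' * Real.exp (-m * (4 + Real.log M))) :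
    Real.exp (2 * n * m) * (x ^ m * y ^ n) ≤
      Real.exp (Real.log M' ^ 2) * (Real.exp (-(n/2)) * Real.exp (-(m/2))) := by
  wlog hnm : m ≤ n generalizing x y n m
  · have h := this y x m n hm hn hy0 hx0 hy hx hy' hx' (le_of_not_ge hnm)
    calc Real.exp (2 * n * m) * (x ^ m * y ^ n) = Real.exp (2 * m * n) * (y ^ n * x ^ m) := by
          rw [mul_comm (x ^ m)]; congr 2; ring
      _ ≤ _ := h
      _ = _ := by rw [mul_comm (Real.exp (-(n/2)))]
  set L := Real.log M with hL
  set L' := Real.log M' with hL'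
  have hL0 : 0 ≤ L := Real.log_nonneg hM
  have hL'0 : 0 ≤ L' := Real.log_nonneg hM'
  have hMe : M = Real.exp L := (Real.exp_log (by linarith)).symm
  have hMe' : M' = Real.exp L' := (Real.exp_log (by linarith)).symm
  have hn1 : (1:ℝ) ≤ n := by exact_mod_cast hn
  have hm1 : (1:ℝ) ≤ m := by exact_mod_cast hm
  have hnm1 : (m:ℝ) ≤ n := by exact_mod_cast hnm
  have h1 : x ^ m ≤ Real.exp (m * (L' - n * (4 + L))) := by
    have : x ≤ Real.exp (L' - n * (4 + L)) := by
      rw [hMe', ← Real.exp_add] at hx'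
      refine hx'.trans (le_of_eq ?_)
      congr 1; ring
    calc x ^ m ≤ (Real.exp (L' - n * (4 + L))) ^ m := by gcongr
      _ = _ := by rw [← Real.exp_nat_mul]
  have h2 : y ^ n ≤ Real.exp (n * L) := by
    rw [hMe] at hy
    calc y ^ n ≤ (Real.exp L) ^ n := by gcongr
      _ = _ := by rw [← Real.exp_nat_mul]
  calc Real.exp (2 * n * m) * (x ^ m * y ^ n)
      ≤ Real.exp (2 * n * m) * (Real.exp (m * (L' - n * (4 + L))) * Real.exp (n * L)) := by
        gcongr
    _ = Real.exp (2 * n * m + (m * (L' - n * (4 + L)) + n * L)) := by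
        rw [← Real.exp_add, ← Real.exp_add]
    _ ≤ Real.exp (L' ^ 2 + (-(n/2) + -(m/2))) := by
        apply Real.exp_le_exp.2
        have e1 : (n:ℝ) * L ≤ m * n * L := by
          have : 0 ≤ ((m:ℝ) - 1) * (n * L) := by
            apply mul_nonneg <;> [linarith; positivity]
          nlinarith
        have e2 : (m:ℝ) * L' ≤ L' ^ 2 + m * n := by
          nlinarith [sq_nonneg ((m:ℝ) - L'), sq_nonneg ((m:ℝ) + L'), mul_nonneg hL'0 hL'0,
            mul_le_mul_of_nonneg_left hnm1 (show (0:ℝ) ≤ m by positivity)]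
        have e3 : (n:ℝ) ≤ m * n := by nlinarith
        have e4 : (m:ℝ) ≤ m * n := by nlinarith
        nlinarith
    _ = _ := by
        rw [← Real.exp_add, ← Real.exp_add]

end Pool.Agent.Work.MP_970e75_an.Full
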