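import Pool.Agent.Work.MP_970e75_an.Full.Interface
import Pool.Agent.Work.MP_970e75_an_helper80.LA
import Pool.Agent.Work.MP_970e75_an_helper80.Q1

/-!
# Block Q: a holomorphic quotient map for a closed circle subgroup
-/

set_option autoImplicit false

namespace Pool.Agent.Work.MP_970e75_an.Full

open Filter Topology Set MeasureTheory
open scoped Manifold ContDiff Topology ENNReal
open Pool.Agent.Work.MP_970e75_an.Gen

/-- Finite products of powers of holomorphic functions are holomorphic. -/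
theorem mdiff_finsupp_prod {E : Type} [NormedAddCommGroup E] [NormedSpace ℂ E]
    {G : Type} [TopologicalSpace G] [ChartedSpace E G] {J : Type} (c : J → G → ℂ)
    (hc : ∀ j, MDifferentiable 𝓘(ℂ, E) 𝓘(ℂ, ℂ) (c j)) (k : J →₀ ℕ) :
    MDifferentiable 𝓘(ℂ, E) 𝓘(ℂ, ℂ) (fun g => k.prod fun j m => c j g ^ m) := by
  classical
  unfold Finsupp.prod
  induction k.support using Finset.induction_on with
  | empty =>
    simp only [Finset.prod_empty]
    exact mdifferentiable_const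
  | insert j s hj ih =>
    simp only [Finset.prod_insert hj]
    exact ((hc j).pow (k j)).mul ih

/-- Uniform bounds on tubes around compact sets. -/
theorem tube_bound {G : Type} [TopologicalSpace G] [Group G] [IsTopologicalGroup G] {l : ℕ}
    {ι : G → Fin l → ℂ} (hι : Continuous ι) {z : ℂ → G} (hz : Continuous z)
    (hper : ∀ u, z (u + 2 * Real.pi * Complex.I) = z u) (K : Set G) (hK : IsCompact K) (r : ℝ) :
    ∃ M : ℝ, 1 ≤ M ∧ ∀ g ∈ K, ∀ s : ℂ, |s.re| ≤ r → ‖ι (g * z s)‖ ≤ M := by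
  have hK2 : IsCompact (K ×ˢ (Set.Icc (-r : ℝ) r ×ℂ Set.Icc (0:ℝ) (2 * Real.pi))) :=
    hK.prod (isCompact_Icc.reProdIm isCompact_Icc)
  obtain ⟨M, hM⟩ := hK2.exists_bound_of_continuousOn
    (f := fun p : G × ℂ => ι (p.1 * z p.2)) (by fun_prop)
  refine ⟨max M 1, le_max_right _ _, fun g hg s hs => ?_⟩
  have hper2 : Function.Periodic (fun θ : ℝ => z (s.re + θ * Complex.I)) (2 * Real.pi) := by
    intro θ
    show z (s.re + (θ + 2 * Real.pi : ℝ) * Complex.I) = z (s.re + θ * Complex.I)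
    rw [← hper (s.re + θ * Complex.I)]
    congr 1
    push_cast; ring
  obtain ⟨y, hy, hy2⟩ := hper2.exists_mem_Ico₀ Real.two_pi_pos s.im
  have h3 : z s = z (s.re + y * Complex.I) := by
    have h4 : z (s.re + s.im * Complex.I) = z (s.re + y * Complex.I) := hy2
    rw [Complex.re_add_im] at h4
    exact h4
  rw [h3]
  refine (hM (g, s.re + y * Complex.I) ⟨hg, ?_⟩).trans (le_max_left _ _)
  rw [Complex.mem_reProdIm]
  constructor
  · simpa using abs_le.1 hs
  · simpa using ⟨hy.1, hy.2.le⟩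

/-- The set of invariant monomials. -/
abbrev QMon (l : ℕ) : Type :=
  {k : (ℤ × Fin l) →₀ ℕ // (k.sum fun j m => (m : ℤ) * j.1) = 0}

theorem qmon_inv {l : ℕ} (k : QMon l) (a : ℤ × Fin l → ℂ) (s : ℂ) :
    (k.1.prod fun j m => (Complex.exp (j.1 * s) * a j) ^ m) = k.1.prod fun j m => a j ^ m := by
  have h1 : (k.1.prod fun j m => (Complex.exp (j.1 * s) * a j) ^ m) =
      (k.1.prod fun j m => Complex.exp (((m : ℤ) * j.1 : ℤ) * s)) *
        k.1.prod fun j m => a j ^ m := by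
    rw [← Finsupp.prod_mul]
    refine Finsupp.prod_congr fun j _ => ?_
    rw [mul_pow, ← Complex.exp_nat_mul]
    congr 2
    push_cast
    ring
  rw [h1]
  have h2 : (k.1.prod fun j m => Complex.exp (((m : ℤ) * j.1 : ℤ) * s)) = 1 := by
    unfold Finsupp.prod
    rw [← Complex.exp_sum, ← Finset.sum_mul, ← Int.cast_sum]
    have h3 := k.2
    unfold Finsupp.sum at h3
    rw [h3]
    simp
  rw [h2, one_mul]

theorem stmt_Q_of (hHU : Stmt_HU) (hSE : Stmt_SE) : Stmt_Q := by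
  intro E _ _ _ G _ _ _ _ hStein z hz hz1 hzp
  obtain ⟨l, ι, hιd, hι⟩ := hStein
  have : IsTopologicalGroup G := topologicalGroup_of_lieGroup 𝓘(ℂ, E) ω
  have hzc : Continuous z := hz.1.continuous
  have hper : ∀ u, z (u + 2 * Real.pi * Complex.I) = z u := fun u => by
    rw [hz.2, hz1, mul_one]
  have hf : ∀ i : Fin l, MDifferentiable 𝓘(ℂ, E) 𝓘(ℂ, ℂ) (fun g => ι g i) := fun i =>
    (ContinuousLinearMap.mdifferentiable (ContinuousLinearMap.proj (R := ℂ)
      (φ := fun _ : Fin l => ℂ) i)).comp hιd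
  have hLA := fun i : Fin l => stmt_LA E G z hz hz1 (fun g => ι g i) (hf i)
  choose c hcd hcs hcsum hcb using hLA
  set C : ℤ → G → Fin l → ℂ := fun n g i => c i n g with hC
  have hCs : ∀ n g s, C n (g * z s) = Complex.exp (n * s) • C n g := by
    intro n g s
    ext i
    exact hcs i n g s
  have hCsum : ∀ g, HasSum (fun n => C n g) (ι g) := by
    intro g
    rw [Pi.hasSum]
    exact fun i => hcsum i g
  have hCb : ∀ g r M, 0 ≤ r → (∀ s : ℂ, |s.re| ≤ r → ‖ι (g * z s)‖ ≤ M) →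
      ∀ n : ℤ, ‖C n g‖ ≤ M * Real.exp (-(|n| : ℤ) * r) := by
    intro g r M hr hM n
    have hM0 : 0 ≤ M := (norm_nonneg _).trans (hM 0 (by simpa using hr))
    rw [pi_norm_le_iff_of_nonneg (by positivity)]
    exact fun i => hcb i g r M hr (fun s hs => (norm_le_pi_norm _ i).trans (hM s hs)) n
  have hU := tube_bound hι.continuous hzc hper
  -- nonvanishing of some coefficients
  have habs : ∀ g, Summable (fun n : ℤ => ‖C n g‖) := by
    intro g
    obtain ⟨M, hM1, hM⟩ := hU {g} isCompact_singleton 1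
    have h1 := hCb g 1 M zero_le_one (hM g rfl)
    refine Summable.of_nonneg_of_le (fun n => norm_nonneg _) h1 ?_
    simpa using la_summable.mul_left M
  have hcomp : ∀ R : ℝ, IsCompact (ι ⁻¹' Metric.closedBall 0 R) := fun R =>
    hι.isCompact_preimage (isCompact_closedBall _ _)
  have hunb : ∀ (g : G) (R : ℝ), ∃ B : ℝ, ∀ s, ‖ι (g * z s)‖ ≤ R → |s.re| ≤ B := by
    intro g R
    have h1 : IsCompact ((fun x => g⁻¹ * x) '' (ι ⁻¹' Metric.closedBall 0 R)) :=
      (hcomp R).image (by fun_prop)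
    obtain ⟨B, hB⟩ := hzp _ h1
    refine ⟨B, fun s hs => hB s ⟨g * z s, by simpa using hs, by simp⟩⟩
  have hpos : ∀ g, ∃ n : ℤ, 0 < n ∧ C n g ≠ 0 := by
    intro g
    by_contra hcon
    push Not at hcon
    obtain ⟨B, hB⟩ := hunb g (∑' n, ‖C n g‖)
    have h1 : ∀ s : ℂ, 0 ≤ s.re → ‖ι (g * z s)‖ ≤ ∑' n, ‖C n g‖ := by
      intro s hs
      rw [← (hCsum (g * z s)).tsum_eq]
      refine tsum_of_norm_bounded (habs g).hasSum fun n => ?_
      rw [hCs, norm_smul, Complex.norm_exp]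
      by_cases hn : 0 < n
      · rw [hcon n hn]; simp
      · have h2 : (n : ℝ) * s.re ≤ 0 :=
          mul_nonpos_of_nonpos_of_nonneg (by exact_mod_cast not_lt.1 hn) hs
        have h3 : ((n : ℂ) * s).re = n * s.re := by simp
        rw [h3]
        have h4 : Real.exp (n * s.re) ≤ 1 := Real.exp_le_one_iff.2 h2
        exact mul_le_of_le_one_left (norm_nonneg _) h4
    have h5 := hB ((|B| + 1 : ℝ) : ℂ) (h1 _ (by simp; positivity))
    rw [Complex.ofReal_re, abs_of_pos (by positivity)] at h5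
    linarith [le_abs_self B]
  have hneg : ∀ g, ∃ n : ℤ, n < 0 ∧ C n g ≠ 0 := by
    intro g
    by_contra hcon
    push Not at hcon
    obtain ⟨B, hB⟩ := hunb g (∑' n, ‖C n g‖)
    have h1 : ∀ s : ℂ, s.re ≤ 0 → ‖ι (g * z s)‖ ≤ ∑' n, ‖C n g‖ := by
      intro s hs
      rw [← (hCsum (g * z s)).tsum_eq]
      refine tsum_of_norm_bounded (habs g).hasSum fun n => ?_
      rw [hCs, norm_smul, Complex.norm_exp]
      by_cases hn : n < 0
      · rw [hcon n hn]; simp
      · have h2 : (n : ℝ) * s.re ≤ 0 :=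
          mul_nonpos_of_nonneg_of_nonpos (by exact_mod_cast not_lt.1 hn) hs
        have h3 : ((n : ℂ) * s).re = n * s.re := by simp
        rw [h3]
        have h4 : Real.exp (n * s.re) ≤ 1 := Real.exp_le_one_iff.2 h2
        exact mul_le_of_le_one_left (norm_nonneg _) h4
    have h5 := hB ((-(|B| + 1) : ℝ) : ℂ) (h1 _ (by
      rw [Complex.ofReal_re]; linarith [abs_nonneg B]))
    rw [Complex.ofReal_re, abs_neg, abs_of_pos (by positivity)] at h5
    linarith [le_abs_self B]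
  have hne : Nonempty (Fin l) := by
    obtain ⟨n, _, hn⟩ := hpos 1
    by_contra hcon
    rw [not_nonempty_iff] at hcon
    exact hn (Subsingleton.elim _ _)
  -- the first family
  obtain ⟨F1, hF1, hF1v⟩ := mdiff_lp (fun i : Fin l => c i 0) (fun i => hcd i 0) (by
    intro K hK
    have h1 : ∀ i, ∃ b : ℝ, ∀ g ∈ K, ‖c i 0 g‖ ≤ b := fun i =>
      hK.exists_bound_of_continuousOn (hcd i 0).continuous.continuousOn
    choose b hb using h1
    exact ⟨b, (hasSum_fintype b).summable, hb⟩)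
  -- the second family
  obtain ⟨F2, hF2, hF2v⟩ := mdiff_lp (fun (p : (ℕ × ℕ) × (Fin l × Fin l)) (g : G) =>
    ((Real.exp (2 * (p.1.1 + 1) * (p.1.2 + 1)) : ℝ) : ℂ) *
      (c p.2.1 (p.1.1 + 1) g ^ (p.1.2 + 1) * c p.2.2 (-(p.1.2 + 1)) g ^ (p.1.1 + 1)))
    (fun p => by
      have h1 := ((hcd p.2.1 (p.1.1 + 1)).pow (p.1.2 + 1)).mul
        ((hcd p.2.2 (-(p.1.2 + 1))).pow (p.1.1 + 1))
      exact h1.const_smul ((Real.exp (2 * (p.1.1 + 1) * (p.1.2 + 1)) : ℝ) : ℂ)) (by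
    intro K hK
    obtain ⟨M, hM1, hM⟩ := hU K hK 0
    have hlog := Real.log_nonneg hM1
    obtain ⟨M', hM'1, hM'⟩ := hU K hK (4 + Real.log M)
    have hs1 : Summable (fun n : ℕ => Real.exp (-(((n + 1 : ℕ) : ℝ)/2))) := by
      have h2 : Summable (fun n : ℕ => Real.exp (n * (-(1/2) : ℝ))) :=
        Real.summable_exp_nat_mul_iff.2 (by norm_num)
      have h3 := (summable_nat_add_iff 1).2 h2
      refine h3.congr fun n => ?_
      congr 1
      push_cast
      ring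
    have hs2 : Summable (fun p : ℕ × ℕ => Real.exp (-(((p.1 + 1 : ℕ) : ℝ)/2)) *
        Real.exp (-(((p.2 + 1 : ℕ) : ℝ)/2))) :=
      hs1.mul_of_nonneg hs1 (fun n => (Real.exp_pos _).le) (fun n => (Real.exp_pos _).le)
    have hs3 : Summable (fun p : (ℕ × ℕ) × (Fin l × Fin l) =>
        (Real.exp (-(((p.1.1 + 1 : ℕ) : ℝ)/2)) * Real.exp (-(((p.1.2 + 1 : ℕ) : ℝ)/2))) *
          (1 : ℝ)) :=
      hs2.mul_of_nonneg (hasSum_fintype (fun _ : Fin l × Fin l => (1:ℝ))).summable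
        (fun n => by positivity) (fun n => zero_le_one)
    refine ⟨_, hs3.mul_left (Real.exp (Real.log M' ^ 2)), ?_⟩
    rintro ⟨⟨n, m⟩, i, j⟩ g hg
    have hx : ∀ k : ℤ, ‖C k g‖ ≤ M := by
      intro k
      have h1 := hCb g 0 M le_rfl (hM g hg) k
      simpa using h1
    have hx' := hCb g (4 + Real.log M) M' (by linarith) (hM' g hg)
    have h1 := qn_estimate ‖C ((n + 1 : ℕ) : ℤ) g‖ ‖C (-((m + 1 : ℕ) : ℤ)) g‖ M M' (n + 1) (m + 1)
      (by omega) (by omega) hM1 hM'1 (norm_nonneg _) (norm_nonneg _) (hx _) (hx _)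
      (by
        refine (hx' _).trans (le_of_eq ?_)
        rw [abs_of_nonneg (by positivity)]
        push_cast; rfl)
      (by
        refine (hx' _).trans (le_of_eq ?_)
        rw [abs_neg, abs_of_nonneg (by positivity)]
        push_cast; rfl)
    rw [mul_one]
    refine le_trans ?_ h1
    rw [norm_mul, norm_mul, norm_pow, norm_pow, Complex.norm_real, Real.norm_eq_abs,
      abs_of_pos (Real.exp_pos _)]
    have e1 : ‖c i ((n:ℤ) + 1) g‖ ≤ ‖C ((n + 1 : ℕ) : ℤ) g‖ := by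
      push_cast
      exact norm_le_pi_norm (C ((n:ℤ) + 1) g) i
    have e2 : ‖c j (-((m:ℤ) + 1)) g‖ ≤ ‖C (-((m + 1 : ℕ) : ℤ)) g‖ := by
      push_cast
      exact norm_le_pi_norm (C (-((m:ℤ) + 1)) g) j
    show Real.exp (2 * (n + 1) * (m + 1)) * (‖c i ((n:ℤ) + 1) g‖ ^ (m + 1) *
      ‖c j (-((m:ℤ) + 1)) g‖ ^ (n + 1)) ≤ _
    push_cast at e1 e2 ⊢
    gcongr)
  -- the third family
  obtain ⟨ε, hε, hεb⟩ := exists_weights ι hι (J := QMon l)
    (fun k g => k.1.prod fun j m => c j.2 j.1 g ^ m)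
    (fun k => (mdiff_finsupp_prod (fun j : ℤ × Fin l => c j.2 j.1)
      (fun j => hcd j.2 j.1) k.1).continuous)
  obtain ⟨F3, hF3, hF3v⟩ := mdiff_lp (fun (k : QMon l) (g : G) =>
    (ε k : ℂ) * k.1.prod fun j m => c j.2 j.1 g ^ m)
    (fun k => (mdiff_finsupp_prod (fun j : ℤ × Fin l => c j.2 j.1)
      (fun j => hcd j.2 j.1) k.1).const_smul (ε k : ℂ)) hεb
  refine ⟨(lp (fun _ : Fin l => ℂ) 1 × lp (fun _ : (ℕ × ℕ) × (Fin l × Fin l) => ℂ) 1) ×
    lp (fun _ : QMon l => ℂ) 1, inferInstance, inferInstance, inferInstance,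
    fun g => ((F1 g, F2 g), F3 g), (hF1.prodMk_space hF2).prodMk_space hF3, ?_, ?_, ?_⟩
  · intro g s
    have e1 : F1 (g * z s) = F1 g := by
      ext i
      rw [hF1v, hF1v, hcs]
      simp
    have e2 : F2 (g * z s) = F2 g := by
      ext p
      rw [hF2v, hF2v, hcs, hcs, mul_pow, mul_pow, ← Complex.exp_nat_mul, ← Complex.exp_nat_mul]
      congr 1
      rw [mul_mul_mul_comm, ← Complex.exp_add]
      rw [show (((p.1.2 + 1 : ℕ) : ℂ) * (((((p.1.1:ℕ) : ℤ) + 1 : ℤ) : ℂ) * s) +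
        ((p.1.1 + 1 : ℕ) : ℂ) * (((-(((p.1.2:ℕ):ℤ) + 1) : ℤ) : ℂ) * s)) = 0 by push_cast; ring]
      rw [Complex.exp_zero, one_mul]
    have e3 : F3 (g * z s) = F3 g := by
      ext k
      rw [hF3v, hF3v]
      congr 1
      rw [← qmon_inv k (fun j => c j.2 j.1 g) s]
      refine Finsupp.prod_congr fun j _ => ?_
      rw [hcs]
    show ((F1 (g * z s), F2 (g * z s)), F3 (g * z s)) = ((F1 g, F2 g), F3 g)
    rw [e1, e2, e3]
  · intro g g' hgg
    have h3 : F3 g = F3 g' := (Prod.ext_iff.1 hgg).2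
    have hmon : ∀ k : QMon l, (k.1.prod fun j m => c j.2 j.1 g ^ m) =
        k.1.prod fun j m => c j.2 j.1 g' ^ m := by
      intro k
      have h4 : F3 g k = F3 g' k := by rw [h3]
      rw [hF3v, hF3v] at h4
      have : (ε k : ℂ) ≠ 0 := by exact_mod_cast (hε k).ne'
      exact mul_left_cancel₀ this h4
    obtain ⟨n1, hn1, hn1'⟩ := hpos g
    obtain ⟨n2, hn2, hn2'⟩ := hneg g
    obtain ⟨i1, hi1⟩ := Function.ne_iff.1 hn1'
    obtain ⟨i2, hi2⟩ := Function.ne_iff.1 hn2'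
    obtain ⟨s, hs⟩ := hSE (ℤ × Fin l) (fun j => j.1) (fun j => c j.2 j.1 g)
      (fun j => c j.2 j.1 g') (fun k hk => hmon ⟨k, hk⟩) ⟨(n1, i1), hn1, hi1⟩
      ⟨(n2, i2), hn2, hi2⟩
    refine ⟨s, hι.injective ?_⟩
    refine (hCsum g').unique ?_
    have h5 := hCsum (g * z s)
    have h6 : (fun n => C n g') = fun n => C n (g * z s) := by
      ext n i
      rw [hCs]
      exact hs (n, i)
    rw [h6]
    exact h5
  · intro R
    set R' := max R 1 with hR'
    have hR'1 : 1 ≤ R' := le_max_right _ _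
    refine ⟨ι ⁻¹' Metric.closedBall 0 (∑' n : ℤ, R' * Real.exp (-(|n| : ℤ))), hcomp _, ?_⟩
    intro g hg
    have hg' : ‖((F1 g, F2 g), F3 g)‖ ≤ R' := hg.trans (le_max_left _ _)
    have hg1 : ‖F1 g‖ ≤ R' := ((norm_fst_le _).trans (norm_fst_le _)).trans hg'
    have hg2 : ‖F2 g‖ ≤ R' := ((norm_snd_le _).trans (norm_fst_le _)).trans hg'
    have hmax : ∀ n : ℤ, ∃ i, ‖C n g‖ ≤ ‖c i n g‖ := by
      intro n
      obtain ⟨i, hi⟩ := Finite.exists_max (fun i => ‖c i n g‖)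
      exact ⟨i, (pi_norm_le_iff_of_nonneg (norm_nonneg _)).2 hi⟩
    obtain ⟨σ, hσ⟩ := hHU (fun n => ‖C n g‖) R' hR'1 (fun n => norm_nonneg _) (by
        rw [pi_norm_le_iff_of_nonneg (by linarith)]
        intro i
        have h1 := lp.norm_apply_le_norm (by simp) (F1 g) i
        rw [hF1v] at h1
        exact h1.trans hg1) (by
        intro n m hn hm
        obtain ⟨n, rfl⟩ : ∃ n', n = n' + 1 := ⟨n - 1, by omega⟩
        obtain ⟨m, rfl⟩ : ∃ m', m = m' + 1 := ⟨m - 1, by omega⟩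
        obtain ⟨i, hi⟩ := hmax ((n + 1 : ℕ) : ℤ)
        obtain ⟨j, hj⟩ := hmax (-((m + 1 : ℕ) : ℤ))
        have h1 := (lp.norm_apply_le_norm (by simp) (F2 g) ((n, m), (i, j))).trans hg2
        rw [hF2v, norm_mul, norm_mul, norm_pow, norm_pow, Complex.norm_real, Real.norm_eq_abs,
          abs_of_pos (Real.exp_pos _)] at h1
        have h2 : ‖C ((n + 1 : ℕ) : ℤ) g‖ ^ (m + 1) * ‖C (-((m + 1 : ℕ) : ℤ)) g‖ ^ (n + 1) ≤
            ‖c i ((n + 1 : ℕ) : ℤ) g‖ ^ (m + 1) * ‖c j (-((m + 1 : ℕ) : ℤ)) g‖ ^ (n + 1) := by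
          gcongr
        refine h2.trans ?_
        rw [Real.exp_neg, ← div_eq_mul_inv, le_div_iff₀ (Real.exp_pos _), mul_comm]
        push_cast
        exact h1) (by
        obtain ⟨n, hn, hn'⟩ := hpos g
        exact ⟨n, hn, norm_ne_zero_iff.2 hn'⟩) (by
        obtain ⟨n, hn, hn'⟩ := hneg g
        exact ⟨n, hn, norm_ne_zero_iff.2 hn'⟩)
    refine ⟨σ, ?_⟩
    rw [Set.mem_preimage, mem_closedBall_zero_iff, ← (hCsum (g * z σ)).tsum_eq]
    refine tsum_of_norm_bounded (la_summable.mul_left R').hasSum fun n => ?_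
    rw [hCs, norm_smul, Complex.norm_exp]
    have h3 : ((n : ℂ) * (σ : ℂ)).re = n * σ := by simp
    rw [h3]
    exact hσ n

end Pool.Agent.Work.MP_970e75_an.Full
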