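import Pool.Agent.Work.MP_970e75_an.Full.Interface

/-!
# Holomorphic functions on complex manifolds, read in charts
-/

set_option autoImplicit false

namespace Pool.Agent.Work.MP_970e75_an.Full

open Filter Topology Set
open scoped Manifold ContDiff Topology

section Chart

variable {E : Type} [NormedAddCommGroup E] [NormedSpace ℂ E] {G : Type}
    [TopologicalSpace G] [ChartedSpace E G] [IsManifold 𝓘(ℂ, E) ω G]
    {W : Type} [NormedAddCommGroup W] [NormedSpace ℂ W]

theorem mdiff_chart {F : G → W} (hF : MDifferentiable 𝓘(ℂ, E) 𝓘(ℂ, W) F) (g₀ : G) :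
    DifferentiableOn ℂ (F ∘ (chartAt E g₀).symm) (chartAt E g₀).target := by
  rw [← mdifferentiableOn_iff_differentiableOn]
  have h1 : MDifferentiableOn 𝓘(ℂ, E) 𝓘(ℂ, E) (chartAt E g₀).symm (chartAt E g₀).target :=
    (contMDiffOn_chart_symm (I := 𝓘(ℂ, E)) (n := ω) (x := g₀)).mdifferentiableOn (by simp)
  exact hF.comp_mdifferentiableOn h1

theorem mdiff_of_chart {F : G → W}
    (hF : ∀ g₀ : G, DifferentiableAt ℂ (F ∘ (chartAt E g₀).symm) (chartAt E g₀ g₀)) :
    MDifferentiable 𝓘(ℂ, E) 𝓘(ℂ, W) F := by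
  intro g₀
  have h1 : MDifferentiableAt 𝓘(ℂ, E) 𝓘(ℂ, E) (chartAt E g₀) g₀ :=
    ((contMDiffOn_chart (I := 𝓘(ℂ, E)) (n := ω) (x := g₀)).mdifferentiableOn
      (by simp)).mdifferentiableAt ((chartAt E g₀).open_source.mem_nhds (mem_chart_source E g₀))
  have h2 : MDifferentiableAt 𝓘(ℂ, E) 𝓘(ℂ, W) (F ∘ (chartAt E g₀).symm) (chartAt E g₀ g₀) :=
    mdifferentiableAt_iff_differentiableAt.2 (hF g₀)
  have h3 := h2.comp g₀ h1
  refine h3.congr_of_eventuallyEq ?_
  filter_upwards [(chartAt E g₀).open_source.mem_nhds (mem_chart_source E g₀)] with x hx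
  simp only [Function.comp_apply]
  rw [(chartAt E g₀).left_inv hx]

end Chart

/-- Cauchy estimate for the derivative. -/
theorem fderiv_le_of_ball {E : Type} [NormedAddCommGroup E] [NormedSpace ℂ E] {W : Type}
    [NormedAddCommGroup W] [NormedSpace ℂ W] {v : E → W} {x : E} {r b : ℝ} (hr : 0 < r)
    (hv : DifferentiableOn ℂ v (Metric.ball x (2 * r)))
    (hb : ∀ y ∈ Metric.ball x (2 * r), ‖v y‖ ≤ b) {y : E} (hy : y ∈ Metric.ball x r) :
    ‖fderiv ℂ v y‖ ≤ 2 * b / r := by
  have hb0 : 0 ≤ b := (norm_nonneg _).trans (hb x (Metric.mem_ball_self (by linarith)))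
  refine ContinuousLinearMap.opNorm_le_bound _ (by positivity) fun h => ?_
  rcases eq_or_ne h 0 with h0 | h0
  · subst h0; simp
  have hn : 0 < ‖h‖ := norm_pos_iff.2 h0
  -- one variable function
  let g : ℂ → W := fun t => v (y + t • h)
  set R : ℝ := r / (2 * ‖h‖) with hR
  have hRpos : 0 < R := by positivity
  have hmem : ∀ t ∈ Metric.closedBall (0 : ℂ) R, y + t • h ∈ Metric.ball x (2 * r) := by
    intro t ht
    rw [mem_closedBall_zero_iff] at ht
    rw [Metric.mem_ball, dist_eq_norm] at hy ⊢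
    calc ‖y + t • h - x‖ = ‖(y - x) + t • h‖ := by congr 1; abel
      _ ≤ ‖y - x‖ + ‖t • h‖ := norm_add_le _ _
      _ < r + ‖t • h‖ := by linarith
      _ = r + ‖t‖ * ‖h‖ := by rw [norm_smul]
      _ ≤ r + R * ‖h‖ := by gcongr
      _ ≤ 2 * r := by
        rw [hR]
        have : r / (2 * ‖h‖) * ‖h‖ = r / 2 := by field_simp
        rw [this]; linarith
  have hg : ∀ t ∈ Metric.closedBall (0 : ℂ) R, HasDerivAt g (fderiv ℂ v (y + t • h) h) t := by
    intro t ht
    have h1 : DifferentiableAt ℂ v (y + t • h) :=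
      (hv _ (hmem t ht)).differentiableAt (Metric.isOpen_ball.mem_nhds (hmem t ht))
    have h2 : HasDerivAt (fun t : ℂ => y + t • h) h t := by
      simpa using ((hasDerivAt_id t).smul_const h).const_add y
    exact h1.hasFDerivAt.comp_hasDerivAt t h2
  have hdc : DiffContOnCl ℂ g (Metric.ball 0 R) := by
    constructor
    · intro t ht
      exact (hg t (Metric.ball_subset_closedBall ht)).differentiableAt.differentiableWithinAt
    · intro t ht
      rw [closure_ball _ hRpos.ne'] at ht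
      exact (hg t ht).continuousAt.continuousWithinAt
  have h3 := Complex.norm_deriv_le_of_forall_mem_sphere_norm_le (c := 0) (C := b) hRpos hdc
    (fun t ht => hb _ (hmem t (Metric.sphere_subset_closedBall ht)))
  have h4 := (hg 0 (Metric.mem_closedBall_self hRpos.le)).deriv
  rw [h4, zero_smul, add_zero] at h3
  refine h3.trans (le_of_eq ?_)
  rw [hR]
  field_simp

end Pool.Agent.Work.MP_970e75_an.Full
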